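import Mathlib
import Pool.Agent.E3S.MkFacts
import Pool.Agent.Helper86.E3.Desc2
import Pool.Agent.Helper16.E3.Body
import Pool.Agent.Helper3.E3.LZone
import Pool.Agent.Helper83.E3.Mk2

/-!
# E-T (MP_12a1af_nt), phase 3: the fields `chain`, `len2`, `card`, `inj` of `LHyp2` and `Ok01`
-/

variable [Pool.Agent.Helper29.E3.EpFn]

set_option autoImplicit false

open Finset

namespace Pool.Agent.Helper32.E3T

open Pool.Agent.ETS (Codes Reg pairs mem_pairs card_pairs runs runs_of_lt)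
open Pool.Agent.Helper83.E3 (mk2 SdOK cat card_cat cat_lt comp_eq_cat ll_even ll_ge hh_eq loc1_okH
  n1 C1s)
open Pool.Agent.Helper29.ETK (CC Kid)
open Pool.Agent.Helper29.E3 (Kid2 kid2 kid ep Wd Hd Ld hh ll av wb zb wn KidOK TopOK epo)
open Pool.Agent.E3 (Codes2 Reg2 Rg rgOf comp layL lay body zoneReg toRegs toRegs2 Chain Ok01 Len
  isPT isPT2 Desc Desc2 IsDesc IsDesc2 HasDesc2 OccT layL_cases2 chain_lay setRg blkRg cellRg
  zoneRg)
open Pool.Agent.E3S (RGood RegCodes OneK CodeFacts codeFacts_mk2 desc_PT desc_RT desc_RTh)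
open Pool.Agent.Helper86.E3 (E0)

/-- size and distinct contents -/
structure GoodRg (r : Rg) : Prop where
  card : r.V.card ^ 2 ≤ 2 ^ r.len
  inj : ∀ v ∈ r.V, ∀ v' ∈ r.V, r.c v ≡ r.c v' [MOD 2 ^ r.len] → v = v'

theorem goodRg_of {r : Rg} {l : ℕ} (hl : r.len = l) (hcard : r.V.card ^ 2 ≤ 2 ^ l)
    (hlt : ∀ z ∈ r.V, r.c z < 2 ^ l) (hinj : ∀ v ∈ r.V, ∀ v' ∈ r.V, r.c v = r.c v' → v = v') :
    GoodRg r := by
  refine ⟨by rw [hl]; exact hcard, fun v hv v' hv' h => hinj v hv v' hv' ?_⟩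
  rw [hl] at h
  have h1 : r.c v % 2 ^ l = r.c v' % 2 ^ l := h
  rwa [Nat.mod_eq_of_lt (hlt v hv), Nat.mod_eq_of_lt (hlt v' hv')] at h1

theorem sq_le_of_half {n l : ℕ} (h : n ≤ 2 ^ (l / 2)) : n ^ 2 ≤ 2 ^ l :=
  calc n ^ 2 ≤ (2 ^ (l / 2)) ^ 2 := Nat.pow_le_pow_left h 2
    _ = 2 ^ (l / 2 * 2) := (pow_mul 2 (l / 2) 2).symm
    _ ≤ 2 ^ l := Nat.pow_le_pow_right (by norm_num) (Nat.div_mul_le_self l 2)

theorem good_set {s l : ℕ} {S : Finset ℕ} (hlt : ∀ z ∈ S, z < 2 ^ l) (hc : S.card ^ 2 ≤ 2 ^ l) :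
    GoodRg (setRg s l S) :=
  goodRg_of (r := setRg s l S) (Nat.add_sub_cancel_left s l) hc hlt (fun _ _ _ _ h => h)

theorem good_blk {s l : ℕ} {S : Finset ℕ} (hlt : ∀ z ∈ S, z < 2 ^ l) (hc : S.card ^ 2 ≤ 2 ^ l) :
    GoodRg (blkRg s l S) :=
  goodRg_of (r := blkRg s l S) (Nat.add_sub_cancel_left s l) hc hlt (fun _ _ _ _ h => h)

theorem good_cell {s l : ℕ} {S : Finset ℕ} (hlt : ∀ z ∈ S, z < 2 ^ l) (hc : S.card ^ 2 ≤ 2 ^ l) :
    GoodRg (cellRg s l S) :=
  goodRg_of (r := cellRg s l S) (Nat.add_sub_cancel_left s l) hc hlt (fun _ _ _ _ h => h)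

theorem good_zone {s l ρ K : ℕ} {S T : Finset ℕ} (hK : K = s + (l + ρ))
    (hS : ∀ z ∈ S, z < 2 ^ l) (hSc : S.card ^ 2 ≤ 2 ^ l) (hT : ∀ z ∈ T, z < 2 ^ ρ)
    (hTc : T.card ^ 2 ≤ 2 ^ ρ) : GoodRg (zoneRg s K l S T) := by
  subst hK
  refine goodRg_of (r := zoneRg s (s + (l + ρ)) l S T) (l := l + ρ)
    (Nat.add_sub_cancel_left s (l + ρ)) ?_ ?_ ?_
  · show (pairs S T).card ^ 2 ≤ 2 ^ (l + ρ)
    rw [card_pairs, mul_pow, pow_add]
    exact Nat.mul_le_mul hSc hTc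
  · intro z hz
    have hz' : z ∈ pairs S T := hz
    rw [mem_pairs] at hz'
    have h1 := hS _ hz'.1
    have h2 := hT _ hz'.2
    show (Nat.unpair z).1 + 2 ^ l * (Nat.unpair z).2 < 2 ^ (l + ρ)
    calc (Nat.unpair z).1 + 2 ^ l * (Nat.unpair z).2
        < 2 ^ l + 2 ^ l * (Nat.unpair z).2 := Nat.add_lt_add_right h1 _
      _ = 2 ^ l * ((Nat.unpair z).2 + 1) := by ring
      _ ≤ 2 ^ l * 2 ^ ρ := Nat.mul_le_mul_left _ h2
      _ = 2 ^ (l + ρ) := (pow_add _ _ _).symm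
  · intro v hv v' hv' h
    have hz : v ∈ pairs S T := hv
    have hz' : v' ∈ pairs S T := hv'
    rw [mem_pairs] at hz hz'
    have h' : (Nat.unpair v).1 + 2 ^ l * (Nat.unpair v).2 =
        (Nat.unpair v').1 + 2 ^ l * (Nat.unpair v').2 := h
    have h1 := hS _ hz.1
    have h2 := hS _ hz'.1
    have e1 : (Nat.unpair v).1 = (Nat.unpair v').1 := by
      have := congrArg (· % 2 ^ l) h'
      simp only [Nat.add_mul_mod_self_left] at this
      rwa [Nat.mod_eq_of_lt h1, Nat.mod_eq_of_lt h2] at this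
    have e2 : (Nat.unpair v).2 = (Nat.unpair v').2 := by
      rw [e1] at h'
      exact Nat.eq_of_mul_eq_mul_left (by positivity) (Nat.add_left_cancel h')
    rw [← Nat.pair_unpair v, ← Nat.pair_unpair v', e1, e2]

theorem comp_facts {S : Finset ℕ} {l n L : ℕ} (hlt : ∀ z ∈ S, z < 2 ^ l)
    (hc : S.card ^ 2 ≤ 2 ^ l) (hn : l * n ≤ L) :
    (∀ z ∈ comp S l n, z < 2 ^ L) ∧ (comp S l n).card ^ 2 ≤ 2 ^ L := by
  rw [comp_eq_cat]
  have h1 : 2 ^ (l * n) ≤ 2 ^ L := Nat.pow_le_pow_right (by norm_num) hn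
  refine ⟨fun z hz => lt_of_lt_of_le (cat_lt hlt n z hz) h1, ?_⟩
  rw [card_cat hlt]
  calc (S.card ^ n) ^ 2 = (S.card ^ 2) ^ n := by rw [← pow_mul, ← pow_mul, mul_comm]
    _ ≤ (2 ^ l) ^ n := Nat.pow_le_pow_left hc n
    _ = 2 ^ (l * n) := (pow_mul _ _ _).symm
    _ ≤ 2 ^ L := h1

variable {c t : ℕ} {Sd TK : ℕ → Finset ℕ}

theorem len_mk2 : Len c 0 (mk2 c Sd TK) where
  W := fun _ => rfl
  H := fun _ _ => rfl
  L := fun _ _ => rfl

theorem good_old {D : Codes2} {r : Reg} (h : RGood D.toCodes r) :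
    GoodRg ((Reg2.old r).rg D) := ⟨h.1, h.2⟩

/-- the regions of the merged part -/
theorem good_desc {D : Codes2} {e1 : ℕ} (HR : RegCodes c e1 D.toCodes) (hc : 1 ≤ c)
    (H : OneK c e1 t) {d : Desc} {r0 r1 : Reg} (hd : IsDesc c t d r0 r1) :
    RGood D.toCodes r1 := by
  have hW : ∀ s, D.W (ep c s) = Wd c s := fun s => HR.W _
  cases d with
  | P g e =>
    obtain ⟨rfl, h1, h2, h3, -⟩ := hd
    exact HR.P _ _ _ h2.le
  | PT g b =>
    obtain ⟨rfl, h1, h2, h3, h4, h5, -⟩ := hd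
    obtain ⟨d1, d2, -, -, d5, d6⟩ := desc_PT H hc h2 (by omega) h5
    exact HR.PT g b d5 h2 d1 d2 d6
  | RS g b v =>
    obtain ⟨rfl, rfl, h1, h2, h3, h4, h5, -⟩ := hd
    exact HR.R _ _ h3
  | R b v =>
    obtain ⟨rfl, h1, h2, h3, -⟩ := hd
    exact HR.R _ _ h2.le
  | RT b v =>
    obtain ⟨rfl, h1, h2, h3, h4, h5⟩ := hd
    obtain ⟨d1, d2, -, -, d5, d6⟩ := desc_RT H hc h2 h3 h4 h5
    refine HR.RT _ b v d5 ?_ ?_
    · rw [hW]; exact d6
    · rw [hW]; exact Nat.dvd_sub d2 d1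
  | RTh b v =>
    obtain ⟨rfl, h1, h2, h3, h4, h5⟩ := hd
    obtain ⟨d1, d2, -, -, d5, d6⟩ := desc_RTh H hc h2 h3 h4 h5
    refine HR.RTh _ b v d5 ?_ ?_
    · rw [hW]; exact d6
    · rw [hW]; exact Nat.dvd_sub d2 d1

/-- the regions of the top zone -/
theorem good_top (hc : 20 ≤ c) (hS : SdOK Sd) (d : Pool.Agent.E3.Top) (he : 40 ≤ ep c d.lo) :
    GoodRg ((d.reg c).rg (mk2 c Sd TK)) := by
  have HR := (codeFacts_mk2 (TK := TK) hc hS).reg
  have hSd : ∀ e, 40 ≤ e → (∀ z ∈ Sd (ll c e), z < 2 ^ ll c e) ∧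
      (Sd (ll c e)).card ^ 2 ≤ 2 ^ ll c e := fun e he => by
    have h2 := ll_even hc he
    have h8 : 8 ≤ ll c e := le_trans (by norm_num) (ll_ge hc he)
    exact ⟨hS.lt _ h2 h8, sq_le_of_half (hS.card _ h2 h8)⟩
  cases d with
  | T2 b =>
    have he : 40 ≤ ep c b := he
    refine good_old (HR.RT _ b _ he ?_ ?_)
    · exact le_rfl
    · rw [Nat.add_sub_cancel_left]
      exact dvd_rfl
  | C2 b =>
    have he : 40 ≤ ep c b := he
    have h1 := loc1_okH hc he hS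
    obtain ⟨h2, h3⟩ := comp_facts (n := CC c ^ ep c b / hh c (ep c b)) h1.Th_lt
      (sq_le_of_half h1.Th_card) (Nat.mul_div_le _ _)
    exact good_set h2 h3
  | mid f =>
    have he : 40 ≤ ep c f := he
    have h1 := loc1_okH hc he hS
    exact good_set h1.Th_lt (sq_le_of_half h1.Th_card)
  | T1 f =>
    have he : 40 ≤ ep c f := he
    have h1 := loc1_okH hc he hS
    refine good_blk h1.T_lt (sq_le_of_half ?_)
    have h3 := h1.T_card
    refine le_trans h3.le (Nat.pow_le_pow_right (by norm_num) ((Nat.sub_le _ _).trans (Nat.sub_le _ _)))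
  | C1 f =>
    have he : 40 ≤ ep c f := he
    obtain ⟨q1, q2⟩ := hSd _ he
    obtain ⟨h2, h3⟩ := comp_facts (n := hh c (ep c f) / ll c (ep c f)) q1 q2
      (Nat.mul_div_le _ _)
    exact good_set h2 h3
  | cell p =>
    have he : 40 ≤ ep c p := he
    obtain ⟨q1, q2⟩ := hSd _ he
    exact good_cell q1 q2

/-- what is needed here of the window sets -/
structure TKOk (c : ℕ) (TK : ℕ → Finset ℕ) (t : ℕ) : Prop where
  lt : ∀ z ∈ TK t, z < 2 ^ (t - wn c t)
  card : (TK t).card ^ 2 ≤ 2 ^ (t - wn c t)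

theorem get_of_mem {α : Type} {l : List α} {r : α} (h : r ∈ l) (p : α) :
    ∃ (j : ℕ) (r0 : α), (p :: l)[j]? = some r0 ∧ l[j]? = some r := by
  obtain ⟨j, hj, hr⟩ := List.getElem_of_mem h
  refine ⟨j, (p :: l)[j]'(by simp; omega), ?_, ?_⟩
  · rw [List.getElem?_eq_getElem]
  · rw [List.getElem?_eq_getElem hj, hr]

/-- **size and distinct contents of the regions** -/
theorem good_layL (hc : 20 ≤ c) (hS : SdOK Sd) (H : OneK c 40 t) (T : TopOK c t)
    (ht : E0 c ≤ epo c t) (h40 : 40 ≤ epo c t) (hT : TKOk c TK t) {r : Reg2}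
    (hr : r ∈ layL c t) : GoodRg (r.rg (mk2 c Sd TK)) := by
  have hz := Pool.Agent.E3.zb_le T
  obtain ⟨j, r0, h0, h1⟩ := get_of_mem hr (Reg2.old (.R 0 0))
  rcases layL_cases2 H.K (by omega) ht h0 h1 with ⟨d, hd⟩ | ⟨rfl, -, -⟩
  · cases d with
    | old d =>
      obtain ⟨q0, q1, rfl, rfl, hd⟩ := hd
      exact good_old (good_desc (codeFacts_mk2 hc hS).reg (by omega) H hd)
    | top d =>
      obtain ⟨rfl, -, -, h2, h3⟩ := hd
      refine good_top hc hS d (h40.trans (T.ep _ h2 ?_).1)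
      have : d.hi c = d.lo + d.len c := rfl
      omega
  · have hz1 := T.zb1.1
    have hw1 := T.wn1.1
    have hs1 := T.sbt.1
    have he : 40 ≤ ep c (zb c t) := h40.trans (T.ep _ T.wbz hz).1
    have h2 := ll_even hc he
    have h8 : 8 ≤ ll c (ep c (zb c t)) := le_trans (by norm_num) (ll_ge hc he)
    exact good_zone (ρ := t - wn c t) (by unfold Ld at hz1; unfold Ld; omega) (hS.lt _ h2 h8)
      (sq_le_of_half (hS.card _ h2 h8)) hT.lt hT.card

theorem good_lay (hc : 20 ≤ c) (hS : SdOK Sd) (H : OneK c 40 t) (T : TopOK c t)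
    (ht : E0 c ≤ epo c t) (h40 : 40 ≤ epo c t) (hT : TKOk c TK t) {r : Rg}
    (hr : r ∈ lay (mk2 c Sd TK) c t) : GoodRg r := by
  unfold lay at hr
  rw [List.mem_map] at hr
  obtain ⟨q, hq, rfl⟩ := hr
  exact good_layL hc hS H T ht h40 hT hq

/-- **the chain** -/
theorem chain_lay2 (H : KidOK c t) (T : TopOK c t) : Chain 0 (lay (mk2 c Sd TK) c t) t :=
  chain_lay len_mk2 H T (Nat.zero_le _)

/-! ### consecutive regions -/

theorem Chain_get : ∀ {l : List Rg} {u v : ℕ}, Chain u l v → ∀ {j : ℕ} {r0 r1 : Rg},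
    l[j]? = some r0 → l[j + 1]? = some r1 → r0.bot ≤ r0.top ∧ r0.top = r1.bot
  | [], _, _, _, j, _, _, h0, _ => by simp at h0
  | r :: l, u, v, h, 0, r0, r1, h0, h1 => by
    obtain ⟨h2, h3, h4⟩ := h
    simp only [List.getElem?_cons_zero, Option.some.injEq] at h0
    subst h0
    rw [List.getElem?_cons_succ] at h1
    cases l with
    | nil => simp at h1
    | cons q l =>
      simp only [List.getElem?_cons_zero, Option.some.injEq] at h1
      subst h1
      exact ⟨h3, h4.1.symm⟩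
  | r :: l, u, v, h, j + 1, r0, r1, h0, h1 => by
    rw [List.getElem?_cons_succ] at h0 h1
    exact Chain_get h.2.2 h0 h1

/-- **consecutive regions of a layout** -/
theorem ok01_layL {D : Codes2} (hL : Len c 0 D) (hc : 20 ≤ c) (H : KidOK c t) (T : TopOK c t)
    (ht : E0 c ≤ epo c t) (j : ℕ) (q0 q1 : Reg2) (h0 : (layL c t)[j]? = some q0)
    (h1 : (layL c t)[j + 1]? = some q1) : Ok01 D q0 q1 := by
  have hch : Chain 0 (lay D c t) t := chain_lay hL H T (Nat.zero_le _)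
  have h2 : (lay D c t)[j]? = some (q0.rg D) := by
    unfold lay
    rw [List.getElem?_map, h0]
    rfl
  have h3 : (lay D c t)[j + 1]? = some (q1.rg D) := by
    unfold lay
    rw [List.getElem?_map, h1]
    rfl
  obtain ⟨h4, h5⟩ := Chain_get hch h2 h3
  refine ⟨h4, h5, ?_⟩
  rintro p e f b rfl
  have h6 : (Reg2.old (.R 0 0) :: layL c t)[j + 1]? = some (Reg2.old (.PT p e f b)) := by
    rw [List.getElem?_cons_succ]
    exact h0
  rcases layL_cases2 H (by omega) ht h6 h1 with ⟨d, hd⟩ | ⟨-, -, h⟩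
  · cases d with
    | old d =>
      obtain ⟨r0, r1, e0, rfl, hd⟩ := hd
      have e0 : Reg.PT p e f b = r0 := by injection e0
      subst e0
      cases d with
      | RS g b' v =>
        obtain ⟨e1, rfl, -, e2, -⟩ := hd
        simp only [Reg.PT.injEq] at e1
        obtain ⟨rfl, rfl, rfl, rfl⟩ := e1
        refine ⟨e2, v, ?_⟩
        rw [hL.W]
        rfl
      | P g e => exact absurd trivial hd.2.1
      | PT g b => exact absurd trivial hd.2.1
      | R b v => exact absurd trivial hd.2.1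
      | RT b v => exact absurd trivial hd.2.1
      | RTh b v => exact absurd trivial hd.2.1
    | top d => exact absurd trivial hd.2.1
  · exact absurd trivial h

/-! ### the length is at least two -/

theorem toRegs_ne (q : Kid × ℕ × ℕ) : toRegs c t q ≠ [] := by
  obtain ⟨k, s, e⟩ := q
  cases k with
  | PT g b =>
    simp only [toRegs]
    split_ifs <;> simp
  | _ => simp [toRegs]

theorem toRegs2_ne (q : Kid2 × ℕ × ℕ) : toRegs2 c t q ≠ [] := by
  obtain ⟨k, s, e⟩ := q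
  cases k with
  | old k =>
    simp only [toRegs2]
    intro h
    exact toRegs_ne (c := c) (t := t) (k, s, e) (List.map_eq_nil_iff.1 h)
  | _ => simp [toRegs2]

theorem len2_layL (H : KidOK c t) (T : TopOK c t) : 2 ≤ (layL c t).length := by
  have h0 : 0 < zb c t := lt_of_lt_of_le H.wb0 T.wbz
  have h1 : 0 < (body c t).length := by
    unfold body
    rw [runs_of_lt _ h0, List.flatMap_cons, List.length_append]
    have := List.length_pos_of_ne_nil
      (toRegs2_ne (c := c) (t := t) (kid2 c t 0, 0, Pool.Agent.ETS.rend (kid2 c t) 0 (zb c t)))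
    omega
  unfold layL
  rw [List.length_append, List.length_singleton]
  omega

theorem len2_lay {D : Codes2} (H : KidOK c t) (T : TopOK c t) : 2 ≤ (lay D c t).length := by
  unfold lay
  rw [List.length_map]
  exact len2_layL H T

end Pool.Agent.Helper32.E3T
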