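import Pool.Agent.E3S.Final
import Pool.Agent.Helper3.E3.UV
import Pool.Agent.Helper3.E3.ThickGen
import Pool.Agent.Helper82.ETN.Num4

/-!
# E-T (MP_12a1af_nt), phase 3: from dyadic blocks to all `x`
-/

open Filter

namespace Pool.Agent.Helper32.E3T

open Pool.Agent.Helper29.E3 (EpFn ep th)
open Pool.Agent.Helper3.E3 (UV log2_le)
open Pool.Agent.Helper82.ETN (log_pow_le_all)

variable [EpFn] {u v : ℕ}

/-- **The thickness.** -/
theorem thickPart (H : UV u v) : Pool.Agent.E3S.ThickPart u v := by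
  intro A K0 b c h ε hε
  have hv : (0:ℝ) < v := by exact_mod_cast H.v0
  have h1 : (v:ℝ) ≤ 2 * u := by exact_mod_cast H.h1
  have h2 : (3:ℝ) * u ≤ 2 * v := by exact_mod_cast H.h2
  have e1 : (1/2 : ℝ) ≤ (u:ℝ) / v := by rw [le_div_iff₀ hv]; linarith
  have e2 : (u:ℝ) / v ≤ 2/3 := by rw [div_le_iff₀ hv]; linarith
  set δ : ℝ := min (ε / 2) (1 / 3) with hδ
  have hδ0 : 0 < δ := lt_min (by linarith) (by norm_num)
  have hδ1 : δ ≤ ε / 2 := min_le_left _ _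
  have hδ2 : δ ≤ 1 / 3 := min_le_right _ _
  obtain ⟨c2, hc2, hlog⟩ := log_pow_le_all 3 δ hδ0
  have key := Pool.Agent.Helper3.E3.thick_gen (A := A) (K0 := K0) (b := 0)
    (f := fun K => b * (Nat.log 2 K + 1) ^ 3 * th c (ep c K)) (γ := 2 * ((u : ℝ) / v) - 1 + δ)
    (C0 := b * (8 * c2)) (by linarith) (by linarith) ?_ ?_ (ε := ε - δ) (by linarith)
  · have e3 : 2 * ((u : ℝ) / v) - 1 + δ + (ε - δ) = 2 * ((u : ℝ) / v) - 1 + ε := by ring
    rw [e3] at key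
    exact key
  · intro K hK
    have hKr : (1:ℝ) ≤ K := by exact_mod_cast hK
    have hKp : (0:ℝ) < K := by linarith
    have h3 := H.th_le (c := c) hK
    have h4 : ((Nat.log 2 K + 1 : ℕ) : ℝ) ^ 3 ≤ (2 * (1 + Real.log K)) ^ 3 :=
      pow_le_pow_left₀ (Nat.cast_nonneg _) (log2_le hK) 3
    have h5 := hlog K hK
    have h6 : ((Nat.log 2 K + 1 : ℕ) : ℝ) ^ 3 ≤ 8 * c2 * (K:ℝ) ^ δ := by
      refine h4.trans ?_
      calc (2 * (1 + Real.log (K:ℝ))) ^ 3 = 8 * (1 + Real.log (K:ℝ)) ^ 3 := by ring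
        _ ≤ 8 * (c2 * (K:ℝ) ^ δ) := mul_le_mul_of_nonneg_left h5 (by norm_num)
        _ = _ := by ring
    have h7 : (0:ℝ) ≤ (th c (ep c K) : ℝ) := Nat.cast_nonneg _
    have h8 : (0:ℝ) ≤ (b:ℝ) := Nat.cast_nonneg _
    calc ((b * (Nat.log 2 K + 1) ^ 3 * th c (ep c K) : ℕ) : ℝ)
        = b * (((Nat.log 2 K + 1 : ℕ) : ℝ) ^ 3 * (th c (ep c K) : ℝ)) := by
          rw [Nat.cast_mul, Nat.cast_mul, Nat.cast_pow]; ring
      _ ≤ b * ((8 * c2 * (K:ℝ) ^ δ) * (K:ℝ) ^ (2 * ((u:ℝ) / v) - 1)) :=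
          mul_le_mul_of_nonneg_left (mul_le_mul h6 h3 h7
            (by have := Real.rpow_nonneg hKp.le δ; positivity)) h8
      _ = b * (8 * c2) * ((K:ℝ) ^ (2 * ((u:ℝ) / v) - 1) * (K:ℝ) ^ δ) := by ring
      _ = _ := by rw [← Real.rpow_add hKp]
  · intro K hK
    have h3 := h K hK
    unfold Pool.Agent.E3S.cntF at h3
    simpa using h3

end Pool.Agent.Helper32.E3T
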