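import Mathlib
import Pool.Agent.Helper83.E3.Mk2
import Pool.Agent.Helper32.ETT.Codes

/-!
# E-T (MP_12a1af_nt), phase 3: sizes of the regions for the codes `mk2`
-/

variable [Pool.Agent.Helper29.E3.EpFn]

open Finset

namespace Pool.Agent.Helper32.E3T

open Pool.Agent.ETS Pool.Agent.Helper83.ET Pool.Agent.ETP Pool.Agent.Helper83.E3
open Pool.Agent.Helper32.ETT
open Pool.Agent.Helper29.ETK (CC lg kk)
open Pool.Agent.Helper29.E3 (ep Wd hh ll th th_mono)
open Pool.Agent.E3 (comp Codes2 Reg2 Rg setRg blkRg cellRg zoneRg rgOf)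

/-! ### lists of regions -/

theorem chain_sum {K : ℕ} : ∀ {l : List Rg} {u : ℕ}, Pool.Agent.E3.Chain u l K →
    u + (l.map Rg.len).sum = K
  | [], u, h => by
    have h' : u = K := h
    simp [h']
  | r :: l, u, h => by
    obtain ⟨h1, h2, h3⟩ := h
    have h4 := chain_sum h3
    have h5 : r.len = r.top - r.bot := rfl
    rw [List.map_cons, List.sum_cons, h5]
    omega

theorem prod_sq2 {q : ℕ} : ∀ (l : List Rg), (∀ r ∈ l, Dft q r.len r.V) →
    2 ^ (l.map Rg.len).sum ≤ (2 ^ (q * l.length) * (l.map fun r => r.V.card).prod) ^ 2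
  | [], _ => by simp
  | r :: l, h => by
    have h1 := prod_sq2 l fun r' hr' => h r' (by simp [hr'])
    have h2 : 2 ^ r.len ≤ (2 ^ q * r.V.card) ^ 2 := h r (by simp)
    rw [List.map_cons, List.sum_cons, List.map_cons, List.prod_cons, List.length_cons, pow_add]
    calc 2 ^ r.len * 2 ^ (l.map Rg.len).sum
        ≤ (2 ^ q * r.V.card) ^ 2 * (2 ^ (q * l.length) * (l.map fun r => r.V.card).prod) ^ 2 :=
          Nat.mul_le_mul h2 h1
      _ = (2 ^ (q * (l.length + 1)) * (r.V.card * (l.map fun r => r.V.card).prod)) ^ 2 := by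
          rw [mul_add, mul_one, pow_add]; ring

/-- **thickness of a list of regions** -/
theorem cnt_le2 {K q n : ℕ} {l : List Rg} (H : Pool.Agent.E3.Chain 0 l K) (hn : l.length ≤ n)
    (h : ∀ r ∈ l, Dft q r.len r.V) :
    2 ^ (K / 2 - q * n) ≤ (l.map fun r => r.V.card).prod := by
  have h1 := chain_sum H
  have h2 := prod_sq2 l h
  rw [zero_add] at h1
  rw [h1] at h2
  set X := (l.map fun r => r.V.card).prod with hX
  have hpos : 0 < X := by
    rcases Nat.eq_zero_or_pos X with h0 | h0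
    · rw [h0] at h2
      simp at h2
    · exact h0
  have hqn : q * l.length ≤ q * n := Nat.mul_le_mul_left _ hn
  refine le_trans (Nat.pow_le_pow_right (by norm_num) (show K / 2 - q * n ≤ K / 2 - q * l.length by
    omega)) ?_
  rcases Nat.lt_or_ge (K / 2) (q * l.length) with h3 | h3
  · rw [Nat.sub_eq_zero_of_le h3.le, pow_zero]
    exact hpos
  · have h4 : (2 ^ (q * l.length) * 2 ^ (K / 2 - q * l.length)) ^ 2 ≤
        (2 ^ (q * l.length) * X) ^ 2 := by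
      refine le_trans ?_ h2
      rw [← pow_add, ← pow_mul]
      exact Nat.pow_le_pow_right (by norm_num) (by omega)
    have h5 := (Nat.pow_le_pow_iff_left (by norm_num)).1 h4
    exact Nat.le_of_mul_le_mul_left h5 (by positivity)

/-! ### concatenations -/

theorem dft_cat {q l n : ℕ} {S : Finset ℕ} (hS : ∀ s ∈ S, s < 2 ^ l) (h : Dft q l S) :
    Dft (q * n) (l * n) (cat l S n) := by
  unfold Dft at *
  rw [card_cat hS]
  calc 2 ^ (l * n) = (2 ^ l) ^ n := pow_mul _ _ _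
    _ ≤ ((2 ^ q * S.card) ^ 2) ^ n := Nat.pow_le_pow_left h n
    _ = (2 ^ (q * n) * S.card ^ n) ^ 2 := by
      rw [pow_mul 2 q n, ← mul_pow, ← pow_mul, ← pow_mul, mul_comm 2 n]

/-! ### the codes -/

/-- the constant of the defects -/
def qq (c : ℕ) : ℕ := 2 ^ 18 * (32 * n1 c ^ 2 + 8) + (6 * CC c ^ 13 + 40)

/-- the defect of all sets up to scale `K` -/
def dq2 (c K : ℕ) : ℕ := qq c * (Nat.log 2 K + 1) ^ 2

theorem one_le_sq (K : ℕ) : 1 ≤ (Nat.log 2 K + 1) ^ 2 := Nat.one_le_pow _ _ (by omega)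

theorem dq_le (c K : ℕ) : dq (CC c) K ≤ dq2 c K := by
  unfold dq dq2 qq
  exact Nat.mul_le_mul_right _ (by omega)

theorem forty_le (c K : ℕ) : 40 ≤ dq2 c K := by
  unfold dq2 qq
  calc 40 ≤ (2 ^ 18 * (32 * n1 c ^ 2 + 8) + (6 * CC c ^ 13 + 40)) * 1 := by omega
    _ ≤ _ := Nat.mul_le_mul_left _ (one_le_sq K)

/-- the sets of the contents of the small cells are large -/
def SdBig (Sd : ℕ → Finset ℕ) : Prop := ∀ l, 2 ∣ l → 4 ≤ l → 2 ^ (l / 2) ≤ 2 ^ 4 * (Sd l).card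

theorem dft_Sd {Sd : ℕ → Finset ℕ} (h : SdBig Sd) {l : ℕ} (h2 : 2 ∣ l) (hl : 4 ≤ l) :
    Dft 5 l (Sd l) := Dft.of_half (h l h2 hl)

section

variable {c : ℕ} {Sd TK : ℕ → Finset ℕ}

/-- defect of the mid cells -/
def dm (c K : ℕ) : ℕ := 2 * (16 * n1 c ^ 2 + 1) + Nat.log 2 K + 6

theorem dft_Th1 (hc : 20 ≤ c) (hS : SdOK Sd) {e K : ℕ} (he : 40 ≤ e) (hK : hh c e ≤ K) :
    Dft (dm c K) (hh c e) ((mk2 c Sd TK).Th1 e) := by
  have h1 := (mk2_loc1 (TK := TK) hc hS he).Th_large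
  rw [← hh_eq hc (by omega)] at h1
  exact dft_VZ_aux hK h1 le_rfl

theorem dft_T1 (hc : 20 ≤ c) (hS : SdOK Sd) {e : ℕ} (he : 40 ≤ e) :
    Dft (10 + th c e) (hh c e) ((mk2 c Sd TK).T1 e) := by
  have h1 := (mk2_loc1 (TK := TK) hc hS he).T_card
  have h2 := ll_even hc he
  rw [← hh_eq hc (by omega)] at h1
  have h3 : 2 ∣ hh c e := by
    rw [hh_eq hc (by omega)]
    exact Dvd.dvd.mul_right h2 _
  unfold Dft
  rw [h1]
  calc 2 ^ (hh c e) ≤ 2 ^ (2 * (10 + th c e + (hh c e / 2 - 10 - th c e))) :=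
        Nat.pow_le_pow_right (by norm_num) (by omega)
    _ = (2 ^ (10 + th c e) * 2 ^ (hh c e / 2 - 10 - th c e)) ^ 2 := by
      rw [← pow_add, ← pow_mul, mul_comm]

theorem dft_Tg {C e t : ℕ} {T Th : Finset ℕ} (h2 : 2 ∣ C) (he : 1 ≤ e) (h : LocG C e t T Th) :
    Dft (10 + t) (C ^ e) T := by
  unfold Dft
  rw [h.T_card]
  have h3 : 2 ∣ C ^ e := h2.trans (dvd_pow_self C (by omega))
  calc 2 ^ (C ^ e) ≤ 2 ^ (2 * (10 + t + (C ^ e / 2 - 10 - t))) :=
        Nat.pow_le_pow_right (by norm_num) (by omega)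
    _ = (2 ^ (10 + t) * 2 ^ (C ^ e / 2 - 10 - t)) ^ 2 := by
      rw [← pow_add, ← pow_mul, mul_comm]

theorem dft_Thg {C e K t : ℕ} {T Th : Finset ℕ} (hC : 2 ≤ C) (hK : C ^ e ≤ K)
    (h : LocG C e t T Th) : Dft (dq C K) (C ^ e) Th := by
  refine dft_VZ_aux hK h.Th_large ?_
  have hK0 : K ≠ 0 := by
    rintro rfl
    have : 0 < C ^ e := by positivity
    omega
  have h3 : e ≤ Nat.log 2 K := by
    rw [Nat.le_log_iff_pow_le (by norm_num) hK0]
    exact (Nat.pow_le_pow_left hC e).trans hK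
  unfold dq
  set L := Nat.log 2 K + 1 with hL
  have h4 : (e + 1) ^ 2 ≤ L ^ 2 := Nat.pow_le_pow_left (by omega) 2
  have h5 : C ^ 13 * (e + 1) ^ 2 ≤ C ^ 13 * L ^ 2 := Nat.mul_le_mul_left _ h4
  have h6 : L ≤ L ^ 2 := by nlinarith
  have h7 : (6 * C ^ 13 + 30) * L ^ 2 = 6 * (C ^ 13 * L ^ 2) + 30 * L ^ 2 := by ring
  omega

theorem ll_pos (c e : ℕ) : 0 < ll c e := by
  unfold ll
  positivity

theorem eight_le_ll (hc : 20 ≤ c) {e : ℕ} (he : 40 ≤ e) : 8 ≤ ll c e :=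
  le_trans (by norm_num) (ll_ge hc he)

theorem four_le_ll (hc : 20 ≤ c) {e : ℕ} (he : 40 ≤ e) : 4 ≤ ll c e :=
  le_trans (by norm_num) (ll_ge hc he)

theorem dft_C1 (hc : 20 ≤ c) (hS : SdOK Sd) (hB : SdBig Sd) {e : ℕ} (he : 40 ≤ e) :
    Dft (5 * n1 c) (hh c e) (C1s c Sd e) := by
  have h2 := ll_even hc he
  have hdiv : hh c e / ll c e = n1 c := by
    rw [hh_eq hc (by omega)]
    exact Nat.mul_div_cancel_left _ (ll_pos c e)
  unfold C1s
  rw [comp_eq_cat, hdiv, hh_eq hc (by omega)]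
  exact dft_cat (hS.lt _ h2 (eight_le_ll hc he)) (dft_Sd hB h2 (four_le_ll hc he))

theorem pow_eq_hh {e : ℕ} (hk : 4 * c ≤ kk e + 10) (hc : 20 ≤ c) (he : 40 ≤ e) :
    CC c ^ e = hh c e * 2 ^ (kk e + 10 - 4 * c) := by
  unfold CC hh
  rw [← pow_mul, ← pow_add]
  congr 1
  have hkk := kk_le (show 9 ≤ e by omega)
  have h1 : c * (e + 4) = c * e + 4 * c := by ring
  have h2 : 20 * e ≤ c * e := Nat.mul_le_mul_right _ hc
  omega

theorem two_pow_kk_le (e : ℕ) : 2 ^ kk e ≤ 16 * (3 * e + 10) := by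
  unfold kk
  have h1 : Nat.clog 2 (8 * (3 * e + 10)) ≠ 0 := by
    have : 0 < Nat.clog 2 (8 * (3 * e + 10)) := Nat.clog_pos (by norm_num) (by omega)
    omega
  have h2 := Nat.pow_pred_clog_lt_self (b := 2) (by norm_num)
    (show 1 < 8 * (3 * e + 10) by omega)
  obtain ⟨m, hm⟩ : ∃ m, Nat.clog 2 (8 * (3 * e + 10)) = m + 1 := ⟨_, (Nat.succ_pred h1).symm⟩
  rw [hm] at h2 ⊢
  rw [Nat.pred_succ] at h2
  rw [pow_succ]
  omega

theorem dft_C2 (hc : 20 ≤ c) (hS : SdOK Sd) {e K : ℕ} (he : 40 ≤ e) (hk : 4 * c ≤ kk e + 10)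
    (hK : CC c ^ e ≤ K) : Dft (dq2 c K) (CC c ^ e) (C2s c Sd e) := by
  have h1 := loc1_ok hc he hS
  have hlt : ∀ t ∈ (loc1 c Sd e).2, t < 2 ^ hh c e := by
    rw [hh_eq hc (by omega)]
    exact h1.Th_lt
  have hhp := hh_pos c e
  have hpow := pow_eq_hh hk hc he
  set n2 := 2 ^ (kk e + 10 - 4 * c) with hn2
  have hn2p : 0 < n2 := by positivity
  have hhK : hh c e ≤ K := by
    calc hh c e = hh c e * 1 := (mul_one _).symm
      _ ≤ hh c e * n2 := Nat.mul_le_mul_left _ hn2p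
      _ = CC c ^ e := hpow.symm
      _ ≤ K := hK
  have hdiv : CC c ^ e / hh c e = n2 := by
    rw [hpow]
    exact Nat.mul_div_cancel_left _ hhp
  have h2 : Dft (dm c K * n2) (CC c ^ e) (C2s c Sd e) := by
    unfold C2s
    rw [comp_eq_cat, hdiv]
    conv => arg 2; rw [hpow]
    exact dft_cat hlt (dft_Th1 (TK := fun _ => ∅) hc hS he hhK)
  refine h2.mono ?_
  have hK0 : K ≠ 0 := by
    have : 0 < CC c ^ e := by
      unfold CC
      positivity
    omega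
  have h3 : e ≤ Nat.log 2 K := by
    rw [Nat.le_log_iff_pow_le (by norm_num) hK0]
    refine le_trans (Nat.pow_le_pow_left ?_ e) hK
    exact le_trans (by norm_num) (CC_ge2 hc)
  set L := Nat.log 2 K + 1 with hL
  have h4 : n2 ≤ 2 ^ 18 * L := by
    calc n2 ≤ 2 ^ (kk e + 10) := Nat.pow_le_pow_right (by norm_num) (by omega)
      _ = 2 ^ kk e * 2 ^ 10 := pow_add _ _ _
      _ ≤ 16 * (3 * e + 10) * 2 ^ 10 := Nat.mul_le_mul_right _ (two_pow_kk_le e)
      _ ≤ 2 ^ 18 * L := by omega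
  have h5 : dm c K ≤ (32 * n1 c ^ 2 + 8) * L := by
    unfold dm
    have : 1 ≤ L := by omega
    nlinarith
  calc dm c K * n2 ≤ (32 * n1 c ^ 2 + 8) * L * (2 ^ 18 * L) := Nat.mul_le_mul h5 h4
    _ = 2 ^ 18 * (32 * n1 c ^ 2 + 8) * L ^ 2 := by ring
    _ ≤ dq2 c K := by
      unfold dq2 qq
      exact Nat.mul_le_mul_right _ (by omega)

theorem dm_le (c K : ℕ) : dm c K ≤ dq2 c K := by
  unfold dm dq2 qq
  have h1 := one_le_sq K
  have h2 : Nat.log 2 K + 1 ≤ (Nat.log 2 K + 1) ^ 2 := Nat.le_self_pow (by norm_num) _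
  generalize (Nat.log 2 K + 1) ^ 2 = Y at h1 h2 ⊢
  generalize n1 c ^ 2 = X
  calc 2 * (16 * X + 1) + Nat.log 2 K + 6 ≤ (32 * X + 8) * 1 + Y := by omega
    _ ≤ (32 * X + 8) * Y + Y := Nat.add_le_add_right (Nat.mul_le_mul_left _ h1) _
    _ = (32 * X + 9) * Y := by ring
    _ ≤ _ := Nat.mul_le_mul_right _ (by omega)

theorem n1_le_qq (c : ℕ) : 5 * n1 c ≤ qq c := by
  unfold qq
  have : n1 c ≤ n1 c ^ 2 := Nat.le_self_pow (by norm_num) _
  omega

/-! ### the regions -/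

/-- well placed regions below the zone -/
def RegOk2 (c K : ℕ) : Reg2 → Prop
  | .old r => RegOk (CC c) K r ∧ (∀ e b v, r = Reg.RT e b v → 40 ≤ e ∧ e ≤ ep c K) ∧
      (∀ e b v, r = Reg.RTh e b v → 40 ≤ e) ∧
      (∀ p e f b, r = Reg.PT p e f b → 40 ≤ e ∧ e ≤ ep c K)
  | .cell l _ => 2 ∣ l ∧ 8 ≤ l
  | .mid e s => 40 ≤ e ∧ s + hh c e ≤ K
  | .T1 e _ => 40 ≤ e ∧ e ≤ ep c K
  | .C1 e _ => 40 ≤ e
  | .C2 e s => 40 ≤ e ∧ 4 * c ≤ kk e + 10 ∧ s + CC c ^ e ≤ K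
  | .zone _ _ _ => False

theorem mkT_dft_reg (hc : 20 ≤ c) (hS : SdOK Sd) {K : ℕ} {r : Reg} (h : RegOk2 c K (.old r)) :
    Dft (2 * dq (CC c) K + th c (ep c K)) (r.top (mk2 c Sd TK).toCodes - r.bot)
      (r.V (mk2 c Sd TK).toCodes) := by
  have hC := CC_ge2 hc
  have h2 := CC_even2 hc
  obtain ⟨h, hRT, hRTh, hPT⟩ := h
  have hC256 : 256 ≤ CC c := le_trans (by norm_num) hC
  have e2 : 2 * dq (CC c) K + th c (ep c K) = dq (CC c) K + (dq (CC c) K + th c (ep c K)) := by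
    ring
  have e1 : dq (CC c) K ≤ 2 * dq (CC c) K + th c (ep c K) := by omega
  have hT : ∀ e, 40 ≤ e → e ≤ ep c K →
      Dft (dq (CC c) K + th c (ep c K)) (CC c ^ e) ((mk2 c Sd TK).T e) := by
    intro e he heK
    refine (dft_Tg h2 (by omega) (mk2_loc2 (TK := TK) hc hS he).toLocG).mono ?_
    refine Nat.add_le_add ?_ (th_mono heK)
    unfold dq
    have : 1 ≤ (Nat.log 2 K + 1) ^ 2 := Nat.one_le_pow _ _ (by omega)
    calc 10 ≤ (6 * CC c ^ 13 + 30) * 1 := by omega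
      _ ≤ (6 * CC c ^ 13 + 30) * (Nat.log 2 K + 1) ^ 2 := Nat.mul_le_mul_left _ this
  have hTh : ∀ e, 40 ≤ e → CC c ^ e ≤ K → Dft (dq (CC c) K) (CC c ^ e) ((mk2 c Sd TK).Th e) :=
    fun e he hK => dft_Thg (le_trans (by norm_num) hC) hK
      (mk2_loc2 (TK := TK) hc hS he).toLocG
  cases r with
  | P p f b => exact (dft_P (C := (mk2 c Sd TK).toCodes)
      (dft_X hC256 p (show b - f ≤ K by have := h.2; omega))).mono e1
  | PT p e f b =>
    obtain ⟨h1, h3, h4⟩ := h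
    rw [e2]
    exact dft_PT (C := (mk2 c Sd TK).toCodes) h1 (dft_X hC256 p (show b - f ≤ K by omega))
      (hT e (hPT p e f b rfl).1 (hPT p e f b rfl).2)
  | R b v =>
    obtain ⟨h1, h3⟩ := h
    exact (dft_R (C := (mk2 c Sd TK).toCodes) (dft_Y h3 (show v - b ≤ K by omega))).mono e1
  | RT e b v =>
    obtain ⟨h1, h3, h4, h5⟩ := h
    rw [e2]
    exact dft_RT (C := (mk2 c Sd TK).toCodes) h3
      (dft_Y h5 (show v - b - CC c ^ e ≤ K by omega)) (hT e (hRT e b v rfl).1 (hRT e b v rfl).2)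
  | RTh e b v =>
    obtain ⟨h1, h3, h4, h5⟩ := h
    rw [e2]
    exact dft_RTh (C := (mk2 c Sd TK).toCodes) h3
      (dft_Y h5 (show v - b - CC c ^ e ≤ K by omega))
      ((hTh e (hRTh e b v rfl) (by omega)).mono (by omega))
  | win a K' => exact absurd h id
  | winC e a h' K' => exact absurd h id

theorem len_add (s l : ℕ) : s + l - s = l := by omega

/-- **the defect of the regions below the zone** -/
theorem dft_reg2 (hc : 20 ≤ c) (hS : SdOK Sd) (hB : SdBig Sd) {K : ℕ} {r : Reg2}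
    (h : RegOk2 c K r) : Dft (2 * dq2 c K + th c (ep c K)) (r.rg (mk2 c Sd TK)).len
      (r.rg (mk2 c Sd TK)).V := by
  have h40 := forty_le c K
  cases r with
  | old r =>
    refine (mkT_dft_reg (TK := TK) hc hS h).mono ?_
    have := dq_le c K
    omega
  | cell l s =>
    have e1 : ((Reg2.cell l s).rg (mk2 c Sd TK)).len = l := len_add s l
    rw [e1]
    exact (dft_Sd hB h.1 (le_trans (by norm_num) h.2)).mono (by omega)
  | mid e s =>
    have e1 : ((Reg2.mid e s).rg (mk2 c Sd TK)).len = hh c e := len_add s _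
    rw [e1]
    refine (dft_Th1 (TK := TK) hc hS (K := K) h.1 ?_).mono ?_
    · have := h.2
      omega
    · have := dm_le c K
      omega
  | T1 e s =>
    have e1 : ((Reg2.T1 e s).rg (mk2 c Sd TK)).len = hh c e := len_add s _
    rw [e1]
    refine (dft_T1 (TK := TK) hc hS h.1).mono ?_
    have := th_mono (c := c) h.2
    omega
  | C1 e s =>
    have e1 : ((Reg2.C1 e s).rg (mk2 c Sd TK)).len = hh c e := len_add s _
    rw [e1]
    refine (dft_C1 hc hS hB h).mono ?_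
    have h1 := n1_le_qq c
    have h2 : qq c ≤ dq2 c K := Nat.le_mul_of_pos_right _ (one_le_sq K)
    omega
  | C2 e s =>
    have e1 : ((Reg2.C2 e s).rg (mk2 c Sd TK)).len = CC c ^ e := len_add s _
    rw [e1]
    refine (dft_C2 hc hS (K := K) h.1 h.2.1 ?_).mono (by omega)
    have := h.2.2
    omega
  | zone l s K' => exact absurd h id

/-- the defect of the zone -/
theorem dft_zone (hB : SdBig Sd) {K l s : ℕ} (h2 : 2 ∣ l) (hl : 4 ≤ l) (hs : s + l ≤ K)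
    (hT : 2 ^ ((K - (s + l)) / 2) ≤ 2 ^ (4 + th c (ep c K)) * (TK K).card) :
    Dft (2 * dq2 c K + th c (ep c K)) ((Reg2.zone l s K).rg (mk2 c Sd TK)).len
      ((Reg2.zone l s K).rg (mk2 c Sd TK)).V := by
  have h40 := forty_le c K
  have e1 : ((Reg2.zone l s K).rg (mk2 c Sd TK)).len = l + (K - (s + l)) := by
    show K - s = l + (K - (s + l))
    omega
  rw [e1]
  exact (Dft.mul (dft_Sd hB h2 hl) (Dft.of_half hT)).mono (by omega)

end

end Pool.Agent.Helper32.E3T
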