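import Mathlib
import Pool.Agent.Helper32.E3.Size2
import Pool.Agent.Helper41.E3.Sid

/-!
# E-T (MP_12a1af_nt), phase 3: `Sid` is large
-/

variable [Pool.Agent.Helper29.E3.EpFn]

set_option autoImplicit false

namespace Pool.Agent.Helper32.E3T

theorem sdBig_Sid : SdBig Pool.Agent.E3.Sid := by
  intro l _ hl
  have h1 := Pool.Agent.E3.lt_card_Sid hl
  have h2 : 2 ^ (l / 2) = 2 * 2 ^ (l / 2 - 1) := by
    rw [← pow_succ']
    congr 1
    omega
  rw [h2]
  omega

end Pool.Agent.Helper32.E3T
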